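import Mathlib
import Pool.Agent.R291.RMW.W4
import Pool.Agent.R528.RM.Sp3

set_option autoImplicit false

/-!
# The intervals between consecutive odd squares in random models of the primes

The question is whether every `I_k = ((2k-1)², (2k+1)²)` contains a prime.  We determine the exact
size of the fluctuations of the number of members of `I_k`, and of every part
`((2k-1)² + 8ks, (2k-1)² + 8kt)`, `0 ≤ s < t ≤ 1`, of `I_k` (for instance of the two Legendre
intervals `((2k-1)², (2k)²)` and `((2k)², (2k+1)²)`, up to one integer), in EVERY sequential random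
model of the primes.  In these models the integers are decided one after the other, only integers
coprime to a fixed `Q` can be chosen, and the conditional probability of choosing `n + 1` (coprime to
`Q`) given the past is asymptotic to `(Q / φ(Q)) / log n`; no independence is assumed (for `Q = 1`
Cramér's model and the Hawkins random sieve are examples).  Almost surely, the number of members of
the part differs from the sum of the conditional probabilities by at most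
`(1 + o(1)) √(8 (t - s) k)`, the constant is best possible (such a surplus occurs for some `k` in every
interval `(2^j, 2^(j+1)]` with `j` large), and it is asymptotic to `4 (t - s) k / log k`.
-/

open MeasureTheory Filter
open scoped Topology

namespace Pool.Agent.Results.MP_3a3367_nt.FluctuationsInRandomModels

/-- for `k ≥ 1` the set of the integers `m` with `(2k-1)² + 8ks < m < (2k-1)² + 8kt` -/
noncomputable def part (k : ℕ) (s t : ℝ) : Finset ℕ :=
  Finset.Ioo ((2 * k - 1) ^ 2 + ⌊8 * k * s⌋₊) ((2 * k - 1) ^ 2 + ⌈8 * k * t⌉₊)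

/-- the number of elements of `S` in `part k s t` -/
noncomputable def countPart (S : Set ℕ) (k : ℕ) (s t : ℝ) : ℕ :=
  Set.ncard {m : ℕ | m ∈ S ∧ m ∈ part k s t}

/-- the sum over `m` in `part k s t` of the conditional probabilities of `A m` given `ℱ (m - 1)` -/
noncomputable def condPart {Ω : Type} {mΩ : MeasurableSpace Ω} (μ : Measure Ω) (ℱ : Filtration ℕ mΩ)
    (A : ℕ → Set Ω) (k : ℕ) (s t : ℝ) (ω : Ω) : ℝ :=
  ∑ m ∈ part k s t, (μ[(A m).indicator (fun _ => (1 : ℝ)) | ℱ (m - 1)]) ω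

open Pool.Agent.R528.RM Pool.Agent.R291.RMW

/-- left end -/
noncomputable def aa (s : ℝ) (k : ℕ) : ℕ := (2 * k - 1) ^ 2 + ⌊8 * k * s⌋₊

/-- right end -/
noncomputable def bb (t : ℝ) (k : ℕ) : ℕ := (2 * k - 1) ^ 2 + ⌈8 * k * t⌉₊ - 1

lemma part_eq (k : ℕ) (s t : ℝ) : part k s t = Finset.Ioc (aa s k) (bb t k) := by
  ext m
  unfold part aa bb
  rw [Finset.mem_Ioo, Finset.mem_Ioc]
  omega

lemma mem_part {k m : ℕ} (hk : 1 ≤ k) {s t : ℝ} (hs : 0 ≤ s) :
    m ∈ part k s t ↔ (2 * (k : ℝ) - 1) ^ 2 + 8 * k * s < m ∧ (m : ℝ) < (2 * (k : ℝ) - 1) ^ 2 + 8 * k * t := by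
  have hc : (((2 * k - 1) ^ 2 : ℕ) : ℝ) = (2 * (k : ℝ) - 1) ^ 2 := by
    rw [Nat.cast_pow, Nat.cast_sub (by omega)]
    push_cast
    ring
  unfold part
  rw [Finset.mem_Ioo]
  have h0 : (0 : ℝ) ≤ 8 * k * s := by positivity
  constructor
  · rintro ⟨h1, h2⟩
    constructor
    · have h3 : 8 * (k : ℝ) * s < ⌊8 * (k : ℝ) * s⌋₊ + 1 := Nat.lt_floor_add_one _
      have h4 : (((2 * k - 1) ^ 2 + ⌊8 * (k : ℝ) * s⌋₊ + 1 : ℕ) : ℝ) ≤ m := by exact_mod_cast h1
      rw [Nat.cast_add, Nat.cast_add, hc] at h4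
      push_cast at h4
      linarith
    · obtain ⟨c, hc'⟩ : ∃ c, m = (2 * k - 1) ^ 2 + c := by
        refine ⟨m - (2 * k - 1) ^ 2, ?_⟩
        omega
      have h3 : c < ⌈8 * (k : ℝ) * t⌉₊ := by omega
      rw [Nat.lt_ceil] at h3
      rw [hc', Nat.cast_add, hc]
      linarith
  · rintro ⟨h1, h2⟩
    have h3 : (2 * k - 1) ^ 2 < m := by
      have : (((2 * k - 1) ^ 2 : ℕ) : ℝ) < m := by rw [hc]; linarith
      exact_mod_cast this
    obtain ⟨c, hc'⟩ : ∃ c, m = (2 * k - 1) ^ 2 + c := ⟨m - (2 * k - 1) ^ 2, by omega⟩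
    rw [hc', Nat.cast_add, hc] at h1 h2
    constructor
    · have h4 : ⌊8 * (k : ℝ) * s⌋₊ < c := by
        rw [Nat.floor_lt h0]
        linarith
      omega
    · have h4 : c < ⌈8 * (k : ℝ) * t⌉₊ := by
        rw [Nat.lt_ceil]
        linarith
      omega

lemma part_zero_one {k : ℕ} (hk : 1 ≤ k) : part k 0 1 = Finset.Ioo ((2 * k - 1) ^ 2) ((2 * k + 1) ^ 2) := by
  unfold part
  have h1 : ⌊8 * (k : ℝ) * 0⌋₊ = 0 := by simp
  have h2 : ⌈8 * (k : ℝ) * 1⌉₊ = 8 * k := by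
    rw [mul_one]
    have : (8 * (k : ℝ)) = ((8 * k : ℕ) : ℝ) := by push_cast; ring
    rw [this, Nat.ceil_natCast]
  rw [h1, h2]
  congr 1
  obtain ⟨j, rfl⟩ : ∃ j, k = j + 1 := ⟨k - 1, by omega⟩
  have : 2 * (j + 1) - 1 = 2 * j + 1 := by omega
  rw [this]
  ring

lemma countPart_eq {Ω : Type} {A : ℕ → Set Ω} {ω : Ω} {k : ℕ} {s t : ℝ} :
    (countPart {k | ω ∈ A k} k s t : ℝ) = Ncl A (Finset.Ioc (aa s k) (bb t k)) ω := by
  rw [Ncl_eq]
  unfold countPart
  rw [part_eq]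

lemma condPart_eq {Ω : Type} {mΩ : MeasurableSpace Ω} {μ : Measure Ω} {ℱ : Filtration ℕ mΩ}
    {A : ℕ → Set Ω} {ω : Ω} {k : ℕ} {s t : ℝ} :
    condPart μ ℱ A k s t ω = VS μ ℱ A (Finset.Ioc (aa s k) (bb t k)) ω := by
  unfold condPart VS
  rw [part_eq]
  refine Finset.sum_congr rfl fun m hm => ?_
  have := (Finset.mem_Ioc.1 hm).1
  unfold dens
  rw [show m - 1 + 1 = m by omega]

lemma diff_eq {Ω : Type} {mΩ : MeasurableSpace Ω} {μ : Measure Ω} [IsProbabilityMeasure μ]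
    {ℱ : Filtration ℕ mΩ} {A : ℕ → Set Ω} {ω : Ω} {k : ℕ} {s t : ℝ} :
    (countPart {k | ω ∈ A k} k s t : ℝ) - condPart μ ℱ A k s t ω =
      CS μ ℱ A (Finset.Ioc (aa s k) (bb t k)) ω := by
  rw [countPart_eq, condPart_eq, CS_eq]

/-- bounds for the ends -/
lemma ends {s t : ℝ} (hs : 0 ≤ s) (hst : s < t) {k : ℕ} (hk : 1 ≤ k) :
    ((aa s k : ℝ) ≤ (2 * (k : ℝ) - 1) ^ 2 + 8 * k * s) ∧ ((2 * (k : ℝ) - 1) ^ 2 + 8 * k * s - 1 ≤ aa s k) ∧
    ((bb t k : ℝ) ≤ (2 * (k : ℝ) - 1) ^ 2 + 8 * k * t) ∧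
    ((2 * (k : ℝ) - 1) ^ 2 + 8 * k * t - 1 ≤ bb t k) := by
  have hc : (((2 * k - 1) ^ 2 : ℕ) : ℝ) = (2 * (k : ℝ) - 1) ^ 2 := by
    rw [Nat.cast_pow, Nat.cast_sub (by omega)]
    push_cast
    ring
  have h0 : (0 : ℝ) ≤ 8 * k * s := by positivity
  have hk0 : (0 : ℝ) < k := by exact_mod_cast hk
  have ht0 : 0 < t := hs.trans_lt hst
  have ha : (aa s k : ℝ) = (2 * (k : ℝ) - 1) ^ 2 + ⌊8 * (k : ℝ) * s⌋₊ := by
    unfold aa
    rw [Nat.cast_add, hc]
  have hcpos : 1 ≤ ⌈8 * (k : ℝ) * t⌉₊ := Nat.one_le_iff_ne_zero.2 (Nat.ceil_pos.2 (by positivity)).ne'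
  have hb : (bb t k : ℝ) = (2 * (k : ℝ) - 1) ^ 2 + ⌈8 * (k : ℝ) * t⌉₊ - 1 := by
    unfold bb
    rw [Nat.cast_sub (by omega), Nat.cast_add, hc]
    norm_num
  rw [ha, hb]
  have h1 := Nat.floor_le h0
  have h2 := Nat.lt_floor_add_one (8 * (k : ℝ) * s)
  have h3 := Nat.le_ceil (8 * (k : ℝ) * t)
  have h4 := Nat.ceil_lt_add_one (show (0 : ℝ) ≤ 8 * k * t by positivity)
  refine ⟨by linarith, by linarith, by linarith, by linarith⟩

lemma ev_big {s t : ℝ} (hst : s < t) (C : ℝ) : ∀ᶠ k : ℕ in atTop, C ≤ 8 * (k : ℝ) * (t - s) := by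
  have h1 : Tendsto (fun k : ℕ => (k : ℝ) * (8 * (t - s))) atTop atTop :=
    tendsto_natCast_atTop_atTop.atTop_mul_const (by linarith)
  filter_upwards [h1.eventually_ge_atTop C] with k hk
  linarith

lemma wd_part {s t : ℝ} (hs : 0 ≤ s) (hst : s < t) (ht : t ≤ 1) : Wd (aa s) (bb t) 2 := by
  have hsq := log_pow_ratio 2
  push_cast at hsq
  have hsq4 : Tendsto (fun n : ℕ => Real.log (4 * (n : ℝ) ^ 2) / Real.log n) atTop (𝓝 2) := by
    have h1 : Tendsto (fun n : ℕ => Real.log 4 / Real.log n) atTop (𝓝 0) := tendsto_log.const_div_atTop _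
    have h2 := h1.add hsq
    rw [zero_add] at h2
    refine h2.congr' ?_
    filter_upwards [eventually_gt_atTop 0] with n hn
    have : (0 : ℝ) < n := by exact_mod_cast hn
    rw [← add_div, ← Real.log_mul (by norm_num) (by positivity)]
  have ht0 : 0 < t := hs.trans_lt hst
  refine ⟨by norm_num, ?_, ?_, ?_, ?_, ?_⟩
  · filter_upwards [eventually_ge_atTop 1, ev_big hst 2] with n hn h2
    obtain ⟨e1, e2, e3, e4⟩ := ends hs hst hn
    have : (aa s n : ℝ) ≤ bb t n := by linarith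
    exact_mod_cast this
  · apply log_ratio_of_close hsq4
    filter_upwards [eventually_ge_atTop 8, ev_big hst 2] with n hn h2
    obtain ⟨e1, e2, e3, e4⟩ := ends hs hst (k := n) (by omega)
    have hn' : (8 : ℝ) ≤ n := by exact_mod_cast hn
    have h3 : 8 * (n : ℝ) * s ≤ 8 * n := by nlinarith
    have h4 : 0 ≤ 8 * (n : ℝ) * s := by positivity
    exact ⟨by positivity, by nlinarith, by nlinarith⟩
  · apply log_ratio_of_close hsq4
    filter_upwards [eventually_ge_atTop 8, ev_big hst 2] with n hn h2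
    obtain ⟨e1, e2, e3, e4⟩ := ends hs hst (k := n) (by omega)
    have hn' : (8 : ℝ) ≤ n := by exact_mod_cast hn
    have h3 : 8 * (n : ℝ) * t ≤ 8 * n := by nlinarith
    have h4 : 0 ≤ 8 * (n : ℝ) * t := by positivity
    exact ⟨by positivity, by nlinarith, by nlinarith⟩
  · refine tendsto_atTop_mono' _ ?_ (lin_log_top (show 0 < 4 * (t - s) by linarith))
    filter_upwards [eventually_ge_atTop 1, ev_big hst 2] with n hn h2
    obtain ⟨e1, e2, e3, e4⟩ := ends hs hst hn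
    apply div_le_div_of_nonneg_right _ (by positivity)
    nlinarith
  · filter_upwards [eventually_ge_atTop 1, ev_big hst 2] with n hn h2
    obtain ⟨e1, e2, e3, e4⟩ := ends hs hst hn
    have hn0 : (0 : ℝ) < n := by exact_mod_cast hn
    have h5 : (bb t n : ℝ) < (2 * ((n : ℝ) + 1) - 1) ^ 2 := by
      have h6 : 8 * (n : ℝ) * t ≤ 8 * n := by nlinarith
      have hcpos : 1 ≤ ⌈8 * (n : ℝ) * t⌉₊ := Nat.one_le_iff_ne_zero.2 (Nat.ceil_pos.2 (by positivity)).ne'
      have h7 : ⌈8 * (n : ℝ) * t⌉₊ ≤ 8 * n := by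
        rw [Nat.ceil_le]
        push_cast
        exact h6
      have hlt : bb t n < (2 * (n + 1) - 1) ^ 2 := by
        unfold bb
        have h8 : (2 * (n + 1) - 1) ^ 2 = (2 * n - 1) ^ 2 + 8 * n := by
          obtain ⟨j, rfl⟩ : ∃ j, n = j + 1 := ⟨n - 1, by omega⟩
          have g1 : 2 * (j + 1) - 1 = 2 * j + 1 := by omega
          have g2 : 2 * (j + 1 + 1) - 1 = 2 * j + 3 := by omega
          rw [g1, g2]
          ring
        omega
      have hc : (((2 * (n + 1) - 1) ^ 2 : ℕ) : ℝ) = (2 * ((n : ℝ) + 1) - 1) ^ 2 := by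
        rw [Nat.cast_pow, Nat.cast_sub (by omega)]
        push_cast
        ring
      rw [← hc]
      exact_mod_cast hlt
    have h6 : (2 * (n + 1) - 1) ^ 2 ≤ aa s (n + 1) := by
      unfold aa
      exact Nat.le_add_right _ _
    have hc : (((2 * (n + 1) - 1) ^ 2 : ℕ) : ℝ) = (2 * ((n : ℝ) + 1) - 1) ^ 2 := by
      rw [Nat.cast_pow, Nat.cast_sub (by omega)]
      push_cast
      ring
    have h7 : (bb t n : ℝ) ≤ aa s (n + 1) := by
      have : (((2 * (n + 1) - 1) ^ 2 : ℕ) : ℝ) ≤ aa s (n + 1) := by exact_mod_cast h6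
      rw [hc] at this
      linarith
    exact_mod_cast h7

/-- the law for one part -/
lemma law_of {Ω : Type} {mΩ : MeasurableSpace Ω} {μ : Measure Ω} [IsProbabilityMeasure μ]
    {ℱ : Filtration ℕ mΩ} {A : ℕ → Set Ω} (hA : ∀ n, MeasurableSet[ℱ n] (A n)) {W : ℕ} (hW : 0 < W)
    (hd : ∀ᵐ ω ∂μ, ∀ ε : ℝ, 0 < ε → ∀ᶠ n : ℕ in atTop, |dens μ ℱ A n ω - rhoW W (n + 1)| ≤ ε * rhoW W (n + 1))
    {s t : ℝ} (hs : 0 ≤ s) (hst : s < t) (ht : t ≤ 1) :
    ∀ᵐ ω ∂μ, (∀ ε : ℝ, 0 < ε →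
        (∀ᶠ k : ℕ in atTop, |(countPart {k | ω ∈ A k} k s t : ℝ) - condPart μ ℱ A k s t ω| ≤
          (1 + ε) * √(8 * (t - s) * k)) ∧
        (∀ᶠ j : ℕ in atTop, ∃ k : ℕ, 2 ^ j < k ∧ k ≤ 2 ^ (j + 1) ∧
          condPart μ ℱ A k s t ω + (1 - ε) * √(8 * (t - s) * k) ≤ countPart {k | ω ∈ A k} k s t)) ∧
      Tendsto (fun k : ℕ => (countPart {k | ω ∈ A k} k s t : ℝ) / (4 * (t - s) * k / Real.log k))
        atTop (𝓝 1) := by
  have h := wd_part hs hst ht
  have hts : 0 < t - s := by linarith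
  filter_upwards [wd_law (μ := μ) (ℱ := ℱ) hA hW hd h, wd_count (μ := μ) (ℱ := ℱ) hA hW hd h] with ω h1 h2
  refine ⟨fun ε hε => ⟨?_, ?_⟩, ?_⟩
  · have hε2 : 0 < ε / 4 := by positivity
    have hη : 0 < min (ε / 4) 1 := lt_min hε2 one_pos
    filter_upwards [(h1 _ hη).1, eventually_ge_atTop 1, ev_big hst 2, ev_big hst (4 / ε)] with k g1 g2 g3 g4
    obtain ⟨e1, e2, e3, e4⟩ := ends hs hst g2
    rw [diff_eq]
    refine g1.trans ?_
    set x : ℝ := 8 * (t - s) * k with hx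
    have hx4 : 4 / ε ≤ x := by rw [hx]; linarith
    have hx0 : 0 < x := lt_of_lt_of_le (by positivity) hx4
    have hL : (2 : ℝ) / 2 * ((bb t k : ℝ) - aa s k) ≤ x + 1 := by
      rw [hx]
      linarith
    have f1 : √((2 : ℝ) / 2 * ((bb t k : ℝ) - aa s k)) ≤ (1 + ε / 4) * √x := by
      refine (Real.sqrt_le_sqrt hL).trans ?_
      rw [Real.sqrt_le_left (by positivity), mul_pow, Real.sq_sqrt hx0.le]
      rw [div_le_iff₀ hε] at hx4
      nlinarith
    have f2 : min (ε / 4) 1 ≤ ε / 4 := min_le_left _ _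
    have f3 : min (ε / 4) 1 ≤ 1 := min_le_right _ _
    calc (1 + min (ε / 4) 1) * √((2 : ℝ) / 2 * ((bb t k : ℝ) - aa s k))
        ≤ (1 + min (ε / 4) 1) * ((1 + ε / 4) * √x) := mul_le_mul_of_nonneg_left f1 (by linarith)
      _ = (1 + (min (ε / 4) 1 + ε / 4 + ε / 4 * min (ε / 4) 1)) * √x := by ring
      _ ≤ (1 + ε) * √x := by
          apply mul_le_mul_of_nonneg_right _ (Real.sqrt_nonneg _)
          have : ε / 4 * min (ε / 4) 1 ≤ ε / 4 * 1 := mul_le_mul_of_nonneg_left f3 hε2.le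
          linarith
  · by_cases hε1 : 1 ≤ ε
    · -- the bound is implied by a smaller `ε`
      have hev := (h1 (1 / 2) (by norm_num)).2
      filter_upwards [hev] with j ⟨k, g1, g2, g3⟩
      refine ⟨k, g1, g2, ?_⟩
      have g4 : 0 ≤ CS μ ℱ A (Finset.Ioc (aa s k) (bb t k)) ω :=
        le_trans (mul_nonneg (by norm_num) (Real.sqrt_nonneg _)) g3
      rw [← diff_eq] at g4
      have g5 : (1 - ε) * √(8 * (t - s) * k) ≤ 0 :=
        mul_nonpos_of_nonpos_of_nonneg (by linarith) (Real.sqrt_nonneg _)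
      linarith
    push Not at hε1
    have hη : 0 < ε / 2 := by positivity
    obtain ⟨n₀, hn₀⟩ := eventually_atTop.1 ((eventually_ge_atTop 1).and ((ev_big hst 2).and (ev_big hst (2 / ε))))
    have h2j : Tendsto (fun j : ℕ => 2 ^ j) atTop atTop := tendsto_pow_atTop_atTop_of_one_lt (by norm_num)
    filter_upwards [(h1 _ hη).2, h2j.eventually_ge_atTop n₀] with j ⟨k, g1, g2, g3⟩ g4
    refine ⟨k, g1, g2, ?_⟩
    obtain ⟨k1, k2, k3⟩ := hn₀ k (by omega)
    obtain ⟨e1, e2, e3, e4⟩ := ends hs hst k1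
    rw [← diff_eq] at g3
    set x : ℝ := 8 * (t - s) * k with hx
    have hx4 : 2 / ε ≤ x := by rw [hx]; linarith
    have hx0 : 0 < x := lt_of_lt_of_le (by positivity) hx4
    have hL : x - 1 ≤ (2 : ℝ) / 2 * ((bb t k : ℝ) - aa s k) := by
      rw [hx]
      linarith
    have f1 : (1 - ε / 2) * √x ≤ √((2 : ℝ) / 2 * ((bb t k : ℝ) - aa s k)) := by
      refine le_trans ?_ (Real.sqrt_le_sqrt hL)
      apply Real.le_sqrt_of_sq_le
      rw [mul_pow, Real.sq_sqrt hx0.le]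
      rw [div_le_iff₀ hε] at hx4
      nlinarith
    have f2 : (1 - ε) * √x ≤ (1 - ε / 2) * √((2 : ℝ) / 2 * ((bb t k : ℝ) - aa s k)) := by
      calc (1 - ε) * √x ≤ (1 - ε / 2) * ((1 - ε / 2) * √x) := by
            have h0 : 0 ≤ ε ^ 2 / 4 * √x := mul_nonneg (by positivity) (Real.sqrt_nonneg _)
            have h1 : (1 - ε / 2) * ((1 - ε / 2) * √x) = (1 - ε) * √x + ε ^ 2 / 4 * √x := by ring
            linarith
        _ ≤ _ := mul_le_mul_of_nonneg_left f1 (by linarith)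
    linarith
  · have hden : ∀ᶠ k : ℕ in atTop, 0 < Real.log (k : ℝ) := tendsto_log.eventually_gt_atTop 0
    have h3 : Tendsto (fun k : ℕ => ((bb t k : ℝ) - aa s k) / (8 * (t - s) * k)) atTop (𝓝 1) := by
      have hlo : Tendsto (fun k : ℕ => 1 - 1 / (8 * (t - s)) / (k : ℝ)) atTop (𝓝 (1 - 0)) :=
        (tendsto_const_div_atTop_nhds_zero_nat _).const_sub 1
      have hup : Tendsto (fun k : ℕ => 1 + 1 / (8 * (t - s)) / (k : ℝ)) atTop (𝓝 (1 + 0)) :=
        (tendsto_const_div_atTop_nhds_zero_nat _).const_add 1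
      rw [sub_zero] at hlo
      rw [add_zero] at hup
      refine tendsto_of_tendsto_of_tendsto_of_le_of_le' hlo hup ?_ ?_
      · filter_upwards [eventually_ge_atTop 1, ev_big hst 2] with k g2 g3
        obtain ⟨e1, e2, e3, e4⟩ := ends hs hst g2
        have hk0 : (0 : ℝ) < k := by exact_mod_cast g2
        rw [le_div_iff₀ (by positivity)]
        have : (1 - 1 / (8 * (t - s)) / (k : ℝ)) * (8 * (t - s) * k) = 8 * (t - s) * k - 1 := by
          field_simp
        rw [this]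
        linarith
      · filter_upwards [eventually_ge_atTop 1, ev_big hst 2] with k g2 g3
        obtain ⟨e1, e2, e3, e4⟩ := ends hs hst g2
        have hk0 : (0 : ℝ) < k := by exact_mod_cast g2
        rw [div_le_iff₀ (by positivity)]
        have : (1 + 1 / (8 * (t - s)) / (k : ℝ)) * (8 * (t - s) * k) = 8 * (t - s) * k + 1 := by
          field_simp
        rw [this]
        linarith
    have h5 := h2.mul h3
    rw [one_mul] at h5
    refine h5.congr' ?_
    filter_upwards [hden, eventually_gt_atTop 0, wd_L_pos h] with k g3 g4 g5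
    have hn0 : (0 : ℝ) < k := by exact_mod_cast g4
    rw [countPart_eq]
    have hts' : t - s ≠ 0 := hts.ne'
    have g6 := g5.ne'
    field_simp
    ring

end Pool.Agent.Results.MP_3a3367_nt.FluctuationsInRandomModels

open Pool.Agent.Results.MP_3a3367_nt.FluctuationsInRandomModels

/-- Let `A n` be the event that `n` belongs to a random set adapted to a filtration `ℱ`, let
`Q ≥ 1`, let no integer which is not coprime to `Q` be chosen, and let the conditional probability of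
`A (n + 1)` given `ℱ n`, times `log n`, tend to `Q / φ(Q)` along the `n` with `n + 1` coprime to `Q`,
almost surely.  Let `0 ≤ s < t ≤ 1`; for `k ≥ 1` let `part k s t` be the set of the integers `m` with
`(2k-1)² + 8ks < m < (2k-1)² + 8kt`, a part of the set `part k 0 1` of the integers between the
consecutive odd squares `(2k-1)²` and `(2k+1)²`.  Then almost surely: for every `ε > 0` the number of
members in `part k s t` differs from the sum of the conditional probabilities by at most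
`(1 + ε) √(8 (t - s) k)` for all large `k`; for every `ε > 0` and all large `j` it exceeds this sum by
at least `(1 - ε) √(8 (t - s) k)` for some `k` with `2 ^ j < k ≤ 2 ^ (j + 1)`; it is asymptotic to
`4 (t - s) k / log k`, and in particular it is at least `K` for all large `k`, for every `K`. -/
theorem Pool.Agent.Results.MP_3a3367_nt.FluctuationsInRandomModels.result
    {Ω : Type} [mΩ : MeasurableSpace Ω] (μ : Measure Ω) [IsProbabilityMeasure μ]
    (ℱ : Filtration ℕ mΩ) (A : ℕ → Set Ω) (hA : ∀ n, MeasurableSet[ℱ n] (A n))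
    (Q : ℕ) (hQ : 0 < Q) (hcop : ∀ n, ¬ Nat.Coprime n Q → A n = ∅)
    (hd : ∀ᵐ ω ∂μ, Tendsto (fun n : ℕ =>
      (μ[(A (n + 1)).indicator (fun _ => (1 : ℝ)) | ℱ n]) ω * Real.log n)
      (atTop ⊓ 𝓟 {n : ℕ | Nat.Coprime (n + 1) Q}) (𝓝 ((Q : ℝ) / Nat.totient Q))) :
    (∀ k : ℕ, 1 ≤ k → part k 0 1 = Finset.Ioo ((2 * k - 1) ^ 2) ((2 * k + 1) ^ 2)) ∧
    (∀ (k m : ℕ) (s t : ℝ), 1 ≤ k → 0 ≤ s → (m ∈ part k s t ↔
      (2 * (k : ℝ) - 1) ^ 2 + 8 * k * s < m ∧ (m : ℝ) < (2 * (k : ℝ) - 1) ^ 2 + 8 * k * t)) ∧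
    ∀ s t : ℝ, 0 ≤ s → s < t → t ≤ 1 → ∀ᵐ ω ∂μ,
      (∀ ε : ℝ, 0 < ε →
        (∀ᶠ k : ℕ in atTop,
          |(countPart {n | ω ∈ A n} k s t : ℝ) - condPart μ ℱ A k s t ω| ≤
            (1 + ε) * √(8 * (t - s) * k)) ∧
        (∀ᶠ j : ℕ in atTop, ∃ k : ℕ, 2 ^ j < k ∧ k ≤ 2 ^ (j + 1) ∧
          condPart μ ℱ A k s t ω + (1 - ε) * √(8 * (t - s) * k) ≤
            countPart {n | ω ∈ A n} k s t)) ∧
      Tendsto (fun k : ℕ => (countPart {n | ω ∈ A n} k s t : ℝ) / (4 * (t - s) * k / Real.log k))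
        atTop (𝓝 1) ∧
      (∀ K : ℕ, ∀ᶠ k : ℕ in atTop, K ≤ countPart {n | ω ∈ A n} k s t) := by
  refine ⟨fun k hk => part_zero_one hk, fun k m s t hk hs => mem_part hk hs, ?_⟩
  intro s t hs hst ht
  have hprof := Pool.Agent.R528.RM.dens_profile (μ := μ) (ℱ := ℱ) hA Q hQ hcop hd
  filter_upwards [law_of (μ := μ) (ℱ := ℱ) hA hQ hprof hs hst ht] with ω h1
  refine ⟨h1.1, h1.2, fun K => ?_⟩
  have hbig : Tendsto (fun k : ℕ => 4 * (t - s) * (k : ℝ) / Real.log k) atTop atTop := by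
    have := Pool.Agent.R291.RMW.lin_log_top (show (0 : ℝ) < 4 * (t - s) by linarith)
    refine tendsto_atTop_mono' _ ?_ this
    filter_upwards [Pool.Agent.R528.RM.tendsto_log.eventually_ge_atTop 1] with n hn
    have hts : 0 < t - s := by linarith
    apply div_le_div_of_nonneg_left (by positivity) (by linarith)
    nlinarith
  have g1 := h1.2.pos_mul_atTop one_pos hbig
  filter_upwards [g1.eventually_ge_atTop (K : ℝ), hbig.eventually_gt_atTop 0] with k k1 k3
  rw [div_mul_cancel₀ _ k3.ne'] at k1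
  exact_mod_cast k1
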