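import Mathlib
import Pool.Agent.R463.One
import Pool.Agent.Y879.GL.Pattern

set_option autoImplicit false

/-!
# The gap laws for almost primes between consecutive odd squares

Sifting by the primes up to a small power of `k`: between the squares of `2 k - 1` and `2 k + 1`, and in all
parts of this interval of length at least `k ^ θ`, the remaining integers (which include all the primes) have
the expected number and follow each other as in a Poisson process.
-/

namespace Pool.Agent.Results.MP_3a3367_nt.GapLaws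

open Finset Filter
open Pool.Agent.R463.PS

/-- `m` has no prime factor `p ≤ X ^ (1 / r)` -/
def Good (X r m : ℕ) : Prop := ∀ p : ℕ, p.Prime → (p : ℝ) ≤ (X : ℝ) ^ (1 / (r : ℝ)) → ¬ p ∣ m

/-- the density: the product of `1 - 1 / p` over the primes `p ≤ X ^ (1 / r)` -/
noncomputable def V (X r : ℕ) : ℝ :=
  ∏ p ∈ (Icc 1 ⌊(X : ℝ) ^ (1 / (r : ℝ))⌋₊).filter Nat.Prime, (1 - 1 / (p : ℝ))

lemma good_iff (X r m : ℕ) : Good X r m ↔ Sifted idf X r m := (idf_sift X r m).symm

lemma V_eq (X r : ℕ) : V X r = V1 X r := rfl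

/-- the primes `p > X` are good -/
lemma good_prime {X r p : ℕ} (hX : 1 ≤ X) (hr : 1 ≤ r) (hp : p.Prime) (hXp : X < p) : Good X r p := by
  intro q hq hqX hd
  have h1 : q = p := (Nat.prime_dvd_prime_iff_eq hq hp).1 hd
  have hX1 : (1 : ℝ) ≤ X := by exact_mod_cast hX
  have hr1 : (1 : ℝ) ≤ r := by exact_mod_cast hr
  have h2 : (X : ℝ) ^ (1 / (r : ℝ)) ≤ X := by
    calc (X : ℝ) ^ (1 / (r : ℝ)) ≤ (X : ℝ) ^ (1 : ℝ) :=
          Real.rpow_le_rpow_of_exponent_le hX1 (by rw [div_le_one (by linarith)]; exact hr1)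
      _ = X := Real.rpow_one _
  have h3 : (q : ℝ) ≤ X := hqX.trans h2
  have h4 : q ≤ X := by exact_mod_cast h3
  omega

/-- good integers up to `X ^ 3` have at most `3 r` prime factors -/
lemma good_few {X r m : ℕ} (hX : 2 ≤ X) (hr : 1 ≤ r) (hm : m ≠ 0) (hmX : m ≤ X ^ 3) (h : Good X r m) :
    m.primeFactorsList.length ≤ 3 * r := by
  have hX1 : (1 : ℝ) < X := by exact_mod_cast (by omega : 1 < X)
  have hr1 : (0 : ℝ) < r := by exact_mod_cast (by omega : 0 < r)
  refine Pool.Agent.Y879.GL.few_of_rough ((X : ℝ) ^ (1 / (r : ℝ))) (Real.one_lt_rpow hX1 (by positivity)) m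
    (3 * r) hm ?_ (fun q hq hqm => ?_)
  · rw [← Real.rpow_natCast, ← Real.rpow_mul (by positivity)]
    have e : 1 / (r : ℝ) * ((3 * r : ℕ) : ℝ) = ((3 : ℕ) : ℝ) := by
      push_cast
      field_simp
    rw [e, Real.rpow_natCast]
    exact_mod_cast hmX
  · by_contra hcon
    push Not at hcon
    exact h q hq hcon hqm

open Classical in
/-- the number of the good `m` in `(Z, Z + Y]` for which fewer than `l` of the integers in `[m - T, m)`
are good -/
noncomputable def Far (X r l T Z Y : ℕ) : ℕ :=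
  ((Ioc Z (Z + Y)).filter (fun m => Good X r m ∧
    ((Ico (m - T) m).filter (fun n => Good X r n)).card < l)).card

lemma Far_eq (X r l T Z Y : ℕ) : Far X r l T Z Y = Pool.Agent.R463.PS.Far idf X r l T Z Y := by
  classical
  unfold Far Pool.Agent.R463.PS.Far
  congr 1
  apply filter_congr
  intro m _
  rw [good_iff]
  have : (Ico (m - T) m).filter (fun n => Good X r n) = (Ico (m - T) m).filter (fun n => Sifted idf X r n) :=
    filter_congr fun n _ => good_iff X r n
  rw [this]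

lemma sq_eq (k : ℕ) (hk : 1 ≤ k) :
    Ioo ((2 * k - 1) ^ 2) ((2 * k + 1) ^ 2) = Ioc ((2 * k - 1) ^ 2) ((2 * k - 1) ^ 2 + (8 * k - 1)) := by
  obtain ⟨j, rfl⟩ : ∃ j, k = j + 1 := ⟨k - 1, by omega⟩
  have e1 : 2 * (j + 1) - 1 = 2 * j + 1 := by omega
  have e2 : (2 * (j + 1) + 1) ^ 2 = (2 * j + 1) ^ 2 + 8 * (j + 1) := by ring
  rw [e1, e2]
  ext m
  simp only [mem_Ioo, mem_Ioc]
  omega

lemma sq_ge (k : ℕ) (hk : 4 ≤ k) : 8 * k - 1 ≤ (2 * k - 1) ^ 2 ∧ (2 * k - 1) ^ 2 ≤ (2 * k) ^ 2 := by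
  obtain ⟨j, rfl⟩ : ∃ j, k = j + 4 := ⟨k - 4, by omega⟩
  have e1 : 2 * (j + 4) - 1 = 2 * j + 7 := by omega
  rw [e1]
  constructor
  · have : (2 * j + 7) ^ 2 = 4 * (j * j) + 28 * j + 49 := by ring
    omega
  · exact Nat.pow_le_pow_left (by omega) 2

open Classical in
/-- **The gap laws between consecutive odd squares.** Let `0 < θ < 1`, `ε > 0`, `l₀`, `x₀`. There is `r₀` such
that for all `r ≥ r₀` and all large `k` (good: without prime factor `≤ (8 k) ^ (1 / r)`):
(1) every prime `p > 8 k` is good, and every good `0 < m < (2 k + 1) ^ 2` has at most `3 r` prime factors;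
(2) the number of the good integers between `(2 k - 1) ^ 2` and `(2 k + 1) ^ 2` is `(8 k - 1) V`, up to
`ε (8 k - 1) V`;
(3) in every interval `(Z, Z + Y]` with `Y ≥ (8 k) ^ θ`, for instance in all the parts of that length of this
interval, the number `Far` of the good `m` with fewer than `l` good integers in `[m - T, m)` is the value
`Y V ∑_{j < l} exp (- T V) (T V) ^ j / j!` for the Poisson process of density `V`, up to `ε Y V`, for all
`l ≤ l₀` and all `T`, and for all `l` and all `T ≤ x₀ / V`. -/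
theorem result (θ : ℝ) (hθ : 0 < θ) (hθ1 : θ < 1) (l₀ : ℕ) (x₀ ε : ℝ) (hε : 0 < ε) :
    ∃ r₀ : ℕ, ∀ r : ℕ, r₀ ≤ r → ∀ᶠ k : ℕ in atTop,
      ((∀ p : ℕ, p.Prime → 8 * k < p → Good (8 * k) r p) ∧
        ∀ m : ℕ, m ≠ 0 → m < (2 * k + 1) ^ 2 → Good (8 * k) r m → m.primeFactorsList.length ≤ 3 * r) ∧
      |(({m ∈ Ioo ((2 * k - 1) ^ 2) ((2 * k + 1) ^ 2) | Good (8 * k) r m}.card : ℕ) : ℝ) -
        (8 * k - 1 : ℕ) * V (8 * k) r| ≤ ε * ((8 * k - 1 : ℕ) * V (8 * k) r) ∧
      ∀ Z Y : ℕ, ((8 * k : ℕ) : ℝ) ^ θ ≤ Y → ∀ l T : ℕ, (l ≤ l₀ ∨ T * V (8 * k) r ≤ x₀) →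
        |(Far (8 * k) r l T Z Y : ℝ) - Y * V (8 * k) r *
          ∑ j ∈ range l, Real.exp (-(T * V (8 * k) r)) * (T * V (8 * k) r) ^ j / j.factorial| ≤
          ε * (Y * V (8 * k) r) := by
  classical
  obtain ⟨r₀, hr₀, h⟩ := one_gaps θ hθ (max l₀ 1) x₀ ε hε
  refine ⟨r₀, fun r hr => ?_⟩
  have h8 : Tendsto (fun k : ℕ => 8 * k) atTop atTop := tendsto_id.const_mul_atTop' (by norm_num)
  have hpow : ∀ᶠ X : ℕ in atTop, (X : ℝ) ^ θ ≤ ((X - 1 : ℕ) : ℝ) := by
    have h1 : ∀ᶠ x : ℝ in atTop, x ^ θ ≤ (1 / 2) * x ^ (1 : ℝ) := by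
      have h2 := (tendsto_rpow_neg_atTop (show (0 : ℝ) < 1 - θ by linarith)).eventually_le_const
        (show (0 : ℝ) < 1 / 2 by norm_num)
      filter_upwards [h2, eventually_gt_atTop 0] with x hx hx0
      calc x ^ θ = x ^ (-(1 - θ)) * x ^ (1 : ℝ) := by
            rw [← Real.rpow_add hx0]
            congr 1
            ring
        _ ≤ (1 / 2) * x ^ (1 : ℝ) := mul_le_mul_of_nonneg_right hx (by positivity)
    filter_upwards [tendsto_natCast_atTop_atTop.eventually h1, eventually_ge_atTop 2] with X hX hX2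
    rw [Real.rpow_one] at hX
    refine hX.trans ?_
    rw [Nat.cast_sub (by omega), Nat.cast_one]
    have : (2 : ℝ) ≤ X := by exact_mod_cast hX2
    linarith
  filter_upwards [h8.eventually (h r hr), h8.eventually hpow, eventually_ge_atTop 2] with k h1 hp h2
  refine ⟨⟨fun p hp hnp => good_prime (by omega) (by omega) hp hnp, fun m hm hmn hg =>
    good_few (by omega) (by omega) hm (hmn.le.trans ?_) hg⟩, ?_, ?_⟩
  · have e1 : 2 * k + 1 ≤ 8 * k := by omega
    calc (2 * k + 1) ^ 2 ≤ (8 * k) ^ 2 := Nat.pow_le_pow_left e1 2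
      _ ≤ (8 * k) ^ 3 := Nat.pow_le_pow_right (by omega) (by norm_num)
  · have h3 := h1 ((2 * k - 1) ^ 2) (8 * k - 1) hp 1 0 (Or.inl (le_max_right _ _))
    rw [← V_eq, ← Far_eq] at h3
    have e1 : Far (8 * k) r 1 0 ((2 * k - 1) ^ 2) (8 * k - 1) =
        {m ∈ Ioo ((2 * k - 1) ^ 2) ((2 * k + 1) ^ 2) | Good (8 * k) r m}.card := by
      unfold Far
      rw [sq_eq k (by omega)]
      congr 1
      apply filter_congr
      intro m _
      simp
    rw [e1] at h3
    simpa using h3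
  · intro Z Y hY l T hT
    have h3 := h1 Z Y hY l T (hT.imp (fun h => h.trans (le_max_left _ _)) (fun h => h))
    rwa [← V_eq, ← Far_eq] at h3

end Pool.Agent.Results.MP_3a3367_nt.GapLaws
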