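import Mathlib
import Pool.Agent.R463.NarLin

set_option autoImplicit false

/-!
# Narrow progressions in arbitrary sets of primes between consecutive odd squares

Almost all elements of every set of primes or almost primes between the squares of `2 k - 1` and `2 k + 1` lie
in narrow arithmetic progressions inside the set and the interval.
-/

namespace Pool.Agent.Results.MP_3a3367_nt.NarrowProgressions

open Finset Filter

/-- The integers all prime factors of which are larger than `m ^ (1 / r)`. -/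
def RoughAt (r : ℕ) : Set ℕ := {m | ∀ p : ℕ, p.Prime → p ∣ m → (m : ℝ) ^ (1 / (r : ℝ)) < (p : ℝ)}

/-- `m` is a term of an `l`-term arithmetic progression with difference at most `D`, all terms of which
are elements of `A` in the interval `(a, b]`. -/
def InProgression (A : Set ℕ) (l : ℕ) (D : ℝ) (a b m : ℕ) : Prop :=
  ∃ u d : ℕ, 1 ≤ d ∧ (d : ℝ) ≤ D ∧ (∀ i < l, u + i * d ∈ A ∧ a < u + i * d ∧ u + i * d ≤ b) ∧
    ∃ i < l, m = u + i * d

lemma InProgression.mono {A : Set ℕ} {l : ℕ} {D D' : ℝ} {a b m : ℕ} (h : InProgression A l D a b m)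
    (hD : D ≤ D') : InProgression A l D' a b m := by
  obtain ⟨u, d, h1, h2, h3⟩ := h
  exact ⟨u, d, h1, h2.trans hD, h3⟩

/-- all primes are in `RoughAt r` -/
lemma prime_mem (r : ℕ) (hr : 2 ≤ r) (q : ℕ) (hq : q.Prime) : q ∈ RoughAt r := by
  intro p hp hd
  have h1 : p = q := (Nat.prime_dvd_prime_iff_eq hp hq).1 hd
  have h2 : (1 : ℝ) < q := by exact_mod_cast hq.one_lt
  have hr2 : (2 : ℝ) ≤ r := by exact_mod_cast hr
  rw [h1]
  have h5 : (1 / (r : ℝ)) < 1 := by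
    rw [div_lt_one (by linarith)]
    linarith
  have := Real.rpow_lt_rpow_of_exponent_lt h2 h5
  rwa [Real.rpow_one] at this

open Classical in
/-- the general theorem for the form `m` -/
lemma narrow (θ : ℝ) (hθ : 0 < θ) (r : ℕ) (hr : 2 ≤ r) (l : ℕ) (hl : 2 ≤ l) (ε : ℝ) (hε : 0 < ε) :
    ∃ B : ℕ, ∀ᶠ X : ℕ in atTop, ∀ Y : ℕ, (X : ℝ) ^ θ ≤ Y → Y ≤ X →
      ∀ A : Set ℕ, A ⊆ RoughAt r →
        (((Ioc X (X + Y)).filter (fun m : ℕ =>
          m ∈ A ∧ ¬ InProgression A l (Real.log X ^ B) X (X + Y) m)).card : ℝ) ≤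
        ε * (Y / Real.log X) := by
  obtain ⟨B, hB⟩ := Pool.Agent.R463.NL.narrow_lin one_pos (fun _ : Fin 1 => 1) (fun _ => 0) (fun _ => one_pos)
    (fun _ => by rw [Nat.cast_one]; exact isCoprime_one_left) (fun i j _ _ => Subsingleton.elim i j) (fun p hp => ⟨1, fun _ h => by
      have h1 : (p : ℤ) ∣ ((1 : ℕ) : ℤ) := by simpa using h
      exact hp.one_lt.ne' (Nat.dvd_one.1 (Int.natCast_dvd_natCast.1 h1))⟩) θ hθ r hr l hl ε hε
  refine ⟨B, ?_⟩
  filter_upwards [hB] with X hX Y hXY hYX A hA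
  have h := hX Y hXY hYX A (fun m hm => by
    intro i p hp hd
    refine hA hm p hp ?_
    have h1 : (p : ℤ) ∣ (m : ℤ) := by simpa using hd
    exact_mod_cast h1)
  rw [pow_one] at h
  exact h

lemma sq_eq (k : ℕ) (hk : 1 ≤ k) :
    Ioo ((2 * k - 1) ^ 2) ((2 * k + 1) ^ 2) = Ioc ((2 * k - 1) ^ 2) ((2 * k - 1) ^ 2 + (8 * k - 1)) := by
  obtain ⟨j, rfl⟩ : ∃ j, k = j + 1 := ⟨k - 1, by omega⟩
  have e1 : 2 * (j + 1) - 1 = 2 * j + 1 := by omega
  have e2 : (2 * (j + 1) + 1) ^ 2 = (2 * j + 1) ^ 2 + 8 * (j + 1) := by ring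
  rw [e1, e2]
  ext m
  simp only [mem_Ioo, mem_Ioc]
  omega

lemma sq_ge (k : ℕ) (hk : 4 ≤ k) : 8 * k - 1 ≤ (2 * k - 1) ^ 2 ∧ (2 * k - 1) ^ 2 ≤ (2 * k) ^ 2 := by
  obtain ⟨j, rfl⟩ : ∃ j, k = j + 4 := ⟨k - 4, by omega⟩
  have e1 : 2 * (j + 4) - 1 = 2 * j + 7 := by omega
  rw [e1]
  constructor
  · have : (2 * j + 7) ^ 2 = 4 * (j * j) + 28 * j + 49 := by ring
    omega
  · exact Nat.pow_le_pow_left (by omega) 2

open Classical in
/-- **Narrow progressions between consecutive odd squares.** (1) All primes belong to `RoughAt r`, for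
`r ≥ 2`. (2) Let `r, l ≥ 2` and `ε > 0`. There is `B` such that for all large `k` and for EVERY set `A` of
integers `m` without prime factor `≤ m ^ (1 / r)`, for instance every set of primes: all but at most
`ε k / log k` of the elements of `A` between `(2 k - 1) ^ 2` and `(2 k + 1) ^ 2` are terms of `l`-term
arithmetic progressions, contained in the part of `A` between these squares, with difference at most
`(log k) ^ B`. -/
theorem result : (∀ r : ℕ, 2 ≤ r → ∀ q : ℕ, q.Prime → q ∈ RoughAt r) ∧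
    ∀ r : ℕ, 2 ≤ r → ∀ l : ℕ, 2 ≤ l → ∀ ε : ℝ, 0 < ε → ∃ B : ℕ, ∀ᶠ k : ℕ in atTop,
      ∀ A : Set ℕ, A ⊆ RoughAt r →
        (((Ioo ((2 * k - 1) ^ 2) ((2 * k + 1) ^ 2)).filter (fun m : ℕ =>
          m ∈ A ∧ ¬ InProgression A l (Real.log k ^ B) ((2 * k - 1) ^ 2) ((2 * k + 1) ^ 2 - 1) m)).card : ℝ) ≤
        ε * (k / Real.log k) := by
  refine ⟨prime_mem, fun r hr l hl ε hε => ?_⟩
  obtain ⟨B, hB⟩ := narrow (1 / 2) (by norm_num) r hr l hl (ε / 8) (by positivity)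
  refine ⟨2 * B, ?_⟩
  rw [eventually_atTop] at hB
  obtain ⟨X₀, hX₀⟩ := hB
  have hlog : ∀ᶠ n : ℕ in atTop, (4 : ℝ) ≤ Real.log n :=
    (Real.tendsto_log_atTop.comp tendsto_natCast_atTop_atTop).eventually_ge_atTop 4
  filter_upwards [hlog, eventually_ge_atTop (max X₀ 4)] with k h1 h2 A hA
  have hk4 : 4 ≤ k := (le_max_right _ _).trans h2
  have hkX : X₀ ≤ k := (le_max_left _ _).trans h2
  obtain ⟨h3, h3'⟩ := sq_ge k hk4
  set Z := (2 * k - 1) ^ 2 with hZ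
  have hkZ : k ≤ Z := by omega
  have hend : (2 * k + 1) ^ 2 - 1 = Z + (8 * k - 1) := by
    rw [hZ]
    obtain ⟨j, rfl⟩ : ∃ j, k = j + 1 := ⟨k - 1, by omega⟩
    have e1 : 2 * (j + 1) - 1 = 2 * j + 1 := by omega
    have e2 : (2 * (j + 1) + 1) ^ 2 = (2 * j + 1) ^ 2 + 8 * (j + 1) := by ring
    rw [e1, e2]
    omega
  have hk0 : (0 : ℝ) < k := by exact_mod_cast (by omega : 0 < k)
  have hZ0 : (0 : ℝ) < Z := by exact_mod_cast (by omega : 0 < Z)
  have hkZ' : (k : ℝ) ≤ Z := by exact_mod_cast hkZ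
  have hlogn : Real.log k ≤ Real.log Z := Real.log_le_log hk0 hkZ'
  have hlogZ : Real.log Z ≤ 4 * Real.log k := by
    have h4 : Z ≤ k ^ 4 := by
      calc Z ≤ (2 * k) ^ 2 := h3'
        _ = 4 * k ^ 2 := by ring
        _ ≤ k ^ 2 * k ^ 2 := by
            apply Nat.mul_le_mul_right
            nlinarith
        _ = k ^ 4 := by ring
    have h5 : (Z : ℝ) ≤ (k : ℝ) ^ 4 := by exact_mod_cast h4
    calc Real.log Z ≤ Real.log ((k : ℝ) ^ 4) := Real.log_le_log hZ0 h5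
      _ = 4 * Real.log k := by rw [Real.log_pow]; norm_num
  have h5 := hX₀ Z (hkX.trans hkZ) (8 * k - 1) (by
    have h4 : (Z : ℝ) ≤ ((8 * k - 1 : ℕ) : ℝ) ^ (2 : ℝ) := by
      rw [Real.rpow_two]
      have h6 : Z ≤ (8 * k - 1) ^ 2 := h3'.trans (Nat.pow_le_pow_left (by omega) 2)
      exact_mod_cast h6
    calc (Z : ℝ) ^ ((1 : ℝ) / 2) ≤ (((8 * k - 1 : ℕ) : ℝ) ^ (2 : ℝ)) ^ ((1 : ℝ) / 2) :=
          Real.rpow_le_rpow hZ0.le h4 (by norm_num)
      _ = ((8 * k - 1 : ℕ) : ℝ) := by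
          rw [← Real.rpow_mul (Nat.cast_nonneg _)]
          norm_num) h3 A hA
  have h6 : Real.log Z ^ B ≤ Real.log k ^ (2 * B) := by
    have h7 : Real.log Z ≤ Real.log k ^ 2 := by nlinarith
    calc Real.log Z ^ B ≤ (Real.log k ^ 2) ^ B := pow_le_pow_left₀ (by linarith) h7 B
      _ = Real.log k ^ (2 * B) := by rw [pow_mul]
  have h8 : (((Ioo Z ((2 * k + 1) ^ 2)).filter (fun m : ℕ =>
          m ∈ A ∧ ¬ InProgression A l (Real.log k ^ (2 * B)) Z ((2 * k + 1) ^ 2 - 1) m)).card : ℝ) ≤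
      (((Ioc Z (Z + (8 * k - 1))).filter (fun m : ℕ =>
          m ∈ A ∧ ¬ InProgression A l (Real.log Z ^ B) Z (Z + (8 * k - 1)) m)).card : ℝ) := by
    rw [hZ, sq_eq k (by omega), ← hZ, hend]
    exact_mod_cast card_le_card (fun m hm => by
      rw [mem_filter] at hm ⊢
      exact ⟨hm.1, hm.2.1, fun h => hm.2.2 (h.mono h6)⟩)
  refine h8.trans (h5.trans ?_)
  have h9 : ((8 * k - 1 : ℕ) : ℝ) ≤ 8 * k := by
    have : 8 * k - 1 ≤ 8 * k := by omega
    exact_mod_cast this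
  have h10 : (0 : ℝ) < Real.log k := by linarith
  calc ε / 8 * (((8 * k - 1 : ℕ) : ℝ) / Real.log Z) ≤ ε / 8 * ((8 * k) / Real.log k) := by gcongr
    _ = ε * (k / Real.log k) := by ring

end Pool.Agent.Results.MP_3a3367_nt.NarrowProgressions
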