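import Mathlib
import Pool.Agent.R463.One
import Pool.Agent.Y879.GL.Pattern

set_option autoImplicit false

/-!
# Regular points of arbitrary sets of primes between consecutive odd squares

Between the squares of `2 k - 1` and `2 k + 1` almost all elements of EVERY set of primes, or of integers
without prime factor up to a small power of `k`, see the set in all windows around them with the right order of
magnitude, and at all scales with few exceptions with a constant density on both sides.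
-/

namespace Pool.Agent.Results.MP_3a3367_nt.RegularPoints

open Finset Filter
open Pool.Agent.R463.PS

/-- `m` has no prime factor `p ≤ X ^ (1 / r)` -/
def Good (X r m : ℕ) : Prop := ∀ p : ℕ, p.Prime → (p : ℝ) ≤ (X : ℝ) ^ (1 / (r : ℝ)) → ¬ p ∣ m

/-- the density: the product of `1 - 1 / p` over the primes `p ≤ X ^ (1 / r)` -/
noncomputable def V (X r : ℕ) : ℝ :=
  ∏ p ∈ (Icc 1 ⌊(X : ℝ) ^ (1 / (r : ℝ))⌋₊).filter Nat.Prime, (1 - 1 / (p : ℝ))

lemma good_iff (X r m : ℕ) : Good X r m ↔ Sifted idf X r m := (idf_sift X r m).symm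

lemma V_eq (X r : ℕ) : V X r = V1 X r := rfl

/-- the primes `p > X` are good -/
lemma good_prime {X r p : ℕ} (hX : 1 ≤ X) (hr : 1 ≤ r) (hp : p.Prime) (hXp : X < p) : Good X r p := by
  intro q hq hqX hd
  have h1 : q = p := (Nat.prime_dvd_prime_iff_eq hq hp).1 hd
  have hX1 : (1 : ℝ) ≤ X := by exact_mod_cast hX
  have hr1 : (1 : ℝ) ≤ r := by exact_mod_cast hr
  have h2 : (X : ℝ) ^ (1 / (r : ℝ)) ≤ X := by
    calc (X : ℝ) ^ (1 / (r : ℝ)) ≤ (X : ℝ) ^ (1 : ℝ) :=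
          Real.rpow_le_rpow_of_exponent_le hX1 (by rw [div_le_one (by linarith)]; exact hr1)
      _ = X := Real.rpow_one _
  have h3 : (q : ℝ) ≤ X := hqX.trans h2
  have h4 : q ≤ X := by exact_mod_cast h3
  omega

/-- good integers up to `X ^ 3` have at most `3 r` prime factors -/
lemma good_few {X r m : ℕ} (hX : 2 ≤ X) (hr : 1 ≤ r) (hm : m ≠ 0) (hmX : m ≤ X ^ 3) (h : Good X r m) :
    m.primeFactorsList.length ≤ 3 * r := by
  have hX1 : (1 : ℝ) < X := by exact_mod_cast (by omega : 1 < X)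
  have hr1 : (0 : ℝ) < r := by exact_mod_cast (by omega : 0 < r)
  refine Pool.Agent.Y879.GL.few_of_rough ((X : ℝ) ^ (1 / (r : ℝ))) (Real.one_lt_rpow hX1 (by positivity)) m
    (3 * r) hm ?_ (fun q hq hqm => ?_)
  · rw [← Real.rpow_natCast, ← Real.rpow_mul (by positivity)]
    have e : 1 / (r : ℝ) * ((3 * r : ℕ) : ℝ) = ((3 : ℕ) : ℝ) := by
      push_cast
      field_simp
    rw [e, Real.rpow_natCast]
    exact_mod_cast hmX
  · by_contra hcon
    push Not at hcon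
    exact h q hq hcon hqm

lemma sq_eq (k : ℕ) (hk : 1 ≤ k) :
    Ioo ((2 * k - 1) ^ 2) ((2 * k + 1) ^ 2) = Ioc ((2 * k - 1) ^ 2) ((2 * k - 1) ^ 2 + (8 * k - 1)) := by
  obtain ⟨j, rfl⟩ : ∃ j, k = j + 1 := ⟨k - 1, by omega⟩
  have e1 : 2 * (j + 1) - 1 = 2 * j + 1 := by omega
  have e2 : (2 * (j + 1) + 1) ^ 2 = (2 * j + 1) ^ 2 + 8 * (j + 1) := by ring
  rw [e1, e2]
  ext m
  simp only [mem_Ioo, mem_Ioc]
  omega

lemma sq_ge (k : ℕ) (hk : 4 ≤ k) : 8 * k - 1 ≤ (2 * k - 1) ^ 2 ∧ (2 * k - 1) ^ 2 ≤ (2 * k) ^ 2 := by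
  obtain ⟨j, rfl⟩ : ∃ j, k = j + 4 := ⟨k - 4, by omega⟩
  have e1 : 2 * (j + 4) - 1 = 2 * j + 7 := by omega
  rw [e1]
  constructor
  · have : (2 * j + 7) ^ 2 = 4 * (j * j) + 28 * j + 49 := by ring
    omega
  · exact Nat.pow_le_pow_left (by omega) 2

open Classical in
/-- **Regular points of arbitrary sets between consecutive odd squares.**

`Regular S V c δ B Y m`: every interval `(m - s, m + t]`, `s, t ≤ Y`, with `c (s + t) V ≥ 1` contains
between `c (s + t) V` and `(s + t) V / c` elements of `S`, and for all scales `1 / V ≤ 2 ^ j ≤ Y` with at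
most `B` exceptions there is a density `c ≤ lam ≤ 1 / c` such that all intervals `(m - s, m + t]`,
`s, t ≤ 2 ^ j`, contain `lam (s + t) V` elements of `S`, up to `δ 2 ^ j V`.

There is `r₀` such that for all `r ≥ r₀` and `ε > 0` there is `c > 0`, and for all `δ > 0` there is `B`, such
that for all large `k` (good: without prime factor `≤ (8 k) ^ (1 / r)`): (1) every prime `p > 8 k` is good, and
every good `0 < m < (2 k + 1) ^ 2` has at most `3 r` prime factors; (2) for EVERY set `S` of good integers: at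
most `ε (8 k - 1) V` elements of `S` between `(2 k - 1) ^ 2` and `(2 k + 1) ^ 2` are not regular points of `S`,
with `Y = 8 k - 1`. -/
theorem result : ∃ r₀ : ℕ, 2 ≤ r₀ ∧ ∀ r : ℕ, r₀ ≤ r → ∀ ε : ℝ, 0 < ε → ∃ c : ℝ, 0 < c ∧ ∀ δ : ℝ, 0 < δ →
    ∃ B : ℕ, ∀ᶠ k : ℕ in atTop,
      ((∀ p : ℕ, p.Prime → 8 * k < p → Good (8 * k) r p) ∧
        ∀ m : ℕ, m ≠ 0 → m < (2 * k + 1) ^ 2 → Good (8 * k) r m → m.primeFactorsList.length ≤ 3 * r) ∧
      ∀ S : Set ℕ, (∀ m ∈ S, Good (8 * k) r m) →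
        (((Ioo ((2 * k - 1) ^ 2) ((2 * k + 1) ^ 2)).filter (fun m =>
          m ∈ S ∧ ¬ Regular S (V (8 * k) r) c δ B (8 * k - 1) m)).card : ℝ) ≤
          ε * ((8 * k - 1 : ℕ) * V (8 * k) r) := by
  obtain ⟨r₀, hr₀, h⟩ := one_regular (1 / 2) (by norm_num)
  refine ⟨r₀, hr₀, fun r hr ε hε => ?_⟩
  obtain ⟨c, hc, h1⟩ := h r hr ε hε
  refine ⟨c, hc, fun δ hδ => ?_⟩
  obtain ⟨B, h2⟩ := h1 δ hδ
  refine ⟨B, ?_⟩
  have h8 : Tendsto (fun k : ℕ => 8 * k) atTop atTop := tendsto_id.const_mul_atTop' (by norm_num)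
  filter_upwards [h8.eventually h2, eventually_ge_atTop 4] with k h1 h2
  refine ⟨⟨fun p hp hnp => good_prime (by omega) (by omega) hp hnp, fun m hm hmn hg =>
    good_few (by omega) (by omega) hm (hmn.le.trans ?_) hg⟩, ?_⟩
  · have e1 : 2 * k + 1 ≤ 8 * k := by omega
    calc (2 * k + 1) ^ 2 ≤ (8 * k) ^ 2 := Nat.pow_le_pow_left e1 2
      _ ≤ (8 * k) ^ 3 := Nat.pow_le_pow_right (by omega) (by norm_num)
  · intro S hS
    have hx : (((8 * k : ℕ) : ℝ)) ^ ((1 : ℝ) / 2) ≤ ((8 * k - 1 : ℕ) : ℝ) := by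
      have h3 : ((8 * k : ℕ) : ℝ) ≤ ((8 * k - 1 : ℕ) : ℝ) ^ (2 : ℝ) := by
        rw [Real.rpow_two]
        have h4 : 8 * k ≤ (8 * k - 1) ^ 2 := by
          obtain ⟨j, rfl⟩ : ∃ j, k = j + 1 := ⟨k - 1, by omega⟩
          have e1 : 8 * (j + 1) - 1 = 8 * j + 7 := by omega
          rw [e1]
          have : (8 * j + 7) ^ 2 = 64 * (j * j) + 112 * j + 49 := by ring
          omega
        exact_mod_cast h4
      calc (((8 * k : ℕ) : ℝ)) ^ ((1 : ℝ) / 2) ≤ (((8 * k - 1 : ℕ) : ℝ) ^ (2 : ℝ)) ^ ((1 : ℝ) / 2) :=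
            Real.rpow_le_rpow (Nat.cast_nonneg _) h3 (by norm_num)
        _ = ((8 * k - 1 : ℕ) : ℝ) := by
            rw [← Real.rpow_mul (Nat.cast_nonneg _)]
            norm_num
    have h4 := h1 ((2 * k - 1) ^ 2) (8 * k - 1) hx (by omega) (sq_ge k h2).1 S
      (fun m hm => (good_iff (8 * k) r m).1 (hS m hm))
    rw [← V_eq] at h4
    rw [sq_eq k (by omega)]
    exact h4

end Pool.Agent.Results.MP_3a3367_nt.RegularPoints
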